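import Pool.Agent.P.MP_6c8efb_pr.Arm.All

/-! All the alternating boundary arm exponents of critical bond percolation on the square lattice,
up to constants. -/

namespace Pool.Agent.Results.MP_6c8efb_pr.Arms

open Pool.Agent.P.MP_6c8efb_pr Pool.Agent.P.MP_6c8efb_pr.Arm

theorem result (j : ℕ) : ∃ c C : ℝ, 0 < c ∧ ∀ n : ℕ, 1 ≤ n →
    c ≤ (n : ℝ) ^ ((j * (j + 1) : ℝ) / 6) * crit.real (arms j n) ∧
      (n : ℝ) ^ ((j * (j + 1) : ℝ) / 6) * crit.real (arms j n) ≤ C := arms_main j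

end Pool.Agent.Results.MP_6c8efb_pr.Arms
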