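import Pool.Agent.P.MP_6c8efb_pr.Path

/-! The boundary touching probability of the exploration path times the quarter plane one-arm
probability is of order `1 / n`. -/

namespace Pool.Agent.Results.MP_6c8efb_pr.Corner

open Pool.Agent.P.MP_6c8efb_pr

theorem result : ∃ c C : ℝ, 0 < c ∧ ∀ n : ℕ, 1 ≤ n →
    c ≤ n * (arm quad n * touch n) ∧ n * (arm quad n * touch n) ≤ C :=
  let ⟨c, C, h1, _, h2⟩ := corner_touch
  ⟨c, C, h1, h2⟩

end Pool.Agent.Results.MP_6c8efb_pr.Corner
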