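import Pool.Agent.P.MP_6c8efb_pr.Two.All

/-! The mean exit time of the exploration path from the box of size `n` is of order `n ^ (7 / 4)`. -/

namespace Pool.Agent.Results.MP_6c8efb_pr.PathLength

open Pool.Agent.P.MP_6c8efb_pr MeasureTheory

theorem result : (∀ n ω, ∃ k, Outside n ω k) ∧
    (∀ n, Integrable (fun ω => (exitTime n ω : ℝ)) crit) ∧
    ∃ c C : ℝ, 0 < c ∧ ∀ n : ℕ, 1 ≤ n →
      c * (n : ℝ) ^ (7 / 4 : ℝ) ≤ meanExit n ∧ meanExit n ≤ C * (n : ℝ) ^ (7 / 4 : ℝ) :=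
  Two.main

end Pool.Agent.Results.MP_6c8efb_pr.PathLength
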