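import Pool.Agent.P.MP_6c8efb_pr.SLE.All

/-!
The exploration path of critical bond percolation on the square lattice converges to chordal
SLE(6). The definitions are in `P/MP_6c8efb_pr/Defs.lean`, `SLE/Stmt.lean` and `SLE/Stmt2.lean`.
-/

open Filter Topology MeasureTheory
open scoped NNReal

namespace Pool.Agent.Results.MP_6c8efb_pr.SLE6

open Pool.Agent.P.MP_6c8efb_pr Pool.Agent.P.MP_6c8efb_pr.SLE

/-- A chordal SLE(6) trace exists, and there are time changes `φ δ ω` such that every chordal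
SLE(6) trace `Γ` tends to infinity and is the limit in law, as the mesh `δ` tends to zero, of the
exploration paths: after the time changes for the uniform convergence on compact sets, and as
curves modulo reparametrisation for the uniform chordal distance. -/
theorem result [MeasurableSpace C(ℝ≥0, ℂ)] [BorelSpace C(ℝ≥0, ℂ)] :
    (∃ (Ω : Type) (_ : MeasurableSpace Ω) (P : Measure Ω) (_ : IsProbabilityMeasure P)
      (Γ : Ω → C(ℝ≥0, ℂ)), IsSLE6 P Γ) ∧
    ∃ φ : ℝ → Cfg → ℝ≥0 ≃o ℝ≥0, ∀ (Ω : Type) [MeasurableSpace Ω] (P : Measure Ω)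
      [IsProbabilityMeasure P] (Γ : Ω → C(ℝ≥0, ℂ)), IsSLE6 P Γ →
      (∀ᵐ ω ∂P, Tendsto (fun t => ‖Γ ω t‖) atTop atTop) ∧
      TendstoInDistribution (fun δ ω => repar (curve δ ω) (φ δ ω)) (𝓝[>] 0) Γ (fun _ => crit) P ∧
      TendstoInDistribution (fun δ ω => Crv.mk (curve δ ω)) (𝓝[>] 0) (fun ω => Crv.mk (Γ ω))
        (fun _ => crit) P :=
  all_MAIN

end Pool.Agent.Results.MP_6c8efb_pr.SLE6
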